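import Pool.Agent.TH5.BD.Para
import Pool.Agent.Helper703.KL.Exist1

/-!
# Rank two parabolic subgroups of a Coxeter group share at most one reflection
-/

set_option autoImplicit false
set_option linter.unusedSectionVars false

namespace Pool.Agent.X257.SE

open CoxeterSystem Pool.Agent.Helper703.Cox Pool.Agent.Helper703.KL Pool.Agent.TH5.BD

variable {B : Type*} {M : CoxeterMatrix B} {W : Type*} [Group W] {cs : CoxeterSystem M W}

/-- `s_i` is conjugated by `d` into the simple reflections of `J`. -/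
def Good (cs : CoxeterSystem M W) (J : Set B) (d : W) (i : B) : Prop :=
  ∃ j ∈ J, cs.simple i * d = d * cs.simple j

/-- Minimal double coset representatives. -/
lemma exists_double (I J : Set B) (g : W) :
    ∃ u ∈ Par cs I, ∃ v ∈ Par cs J, ∃ d, g = u * d * v ∧ LMin cs I d ∧ RMin cs J d := by
  classical
  let P : ℕ → Prop := fun n => ∃ u ∈ Par cs I, ∃ v ∈ Par cs J, ∃ d, g = u * d * v ∧
    cs.length d = n
  have hP : ∃ n, P n := ⟨_, 1, one_mem _, 1, one_mem _, g, by simp, rfl⟩
  obtain ⟨u, hu, v, hv, d, hg, hd⟩ := Nat.find_spec hP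
  refine ⟨u, hu, v, hv, d, hg, fun i hi => ?_, fun j hj => ?_⟩
  · by_contra hcon
    have h1 : cs.length (cs.simple i * d) < cs.length d := by
      rcases cs.length_simple_mul d i with h | h <;> omega
    have h2 : P (cs.length (cs.simple i * d)) := by
      refine ⟨u * cs.simple i, mul_mem hu (simple_mem_par hi), v, hv, cs.simple i * d, ?_, rfl⟩
      rw [hg]
      simp only [mul_assoc, cs.simple_mul_simple_cancel_left]
    have h3 := Nat.find_min' hP h2
    omega
  · by_contra hcon
    have h1 : cs.length (d * cs.simple j) < cs.length d := by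
      rcases cs.length_mul_simple d j with h | h <;> omega
    have h2 : P (cs.length (d * cs.simple j)) := by
      refine ⟨u, hu, cs.simple j * v, mul_mem (simple_mem_par hj) hv, d * cs.simple j, ?_, rfl⟩
      rw [hg]
      simp only [mul_assoc, cs.simple_mul_simple_cancel_left]
    have h3 := Nat.find_min' hP h2
    omega

section

variable [Fintype B] [DecidableEq B]

/-- The left descents of the elements of `W_I ∩ d W_J d⁻¹` are good. -/
lemma good_of_descent {I J : Set B} {d : W} (hl : LMin cs I d) (hr : RMin cs J d) {x : W}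
    (hx : x ∈ Par cs I) {y : W} (hy : y ∈ Par cs J) (hxy : x * d = d * y) {i : B}
    (hi : cs.length (cs.simple i * x) < cs.length x) : i ∈ I ∧ Good cs J d i := by
  have hiI : i ∈ I := par_ldescent_mem hx hi
  refine ⟨hiI, ?_⟩
  have h1 := hl.mul hx
  have h2 := hr.mul hy
  rw [hxy] at h1
  have h3 := hl.mul (mul_mem (simple_mem_par hiI) hx)
  have h4 := hl i hiI
  have h5 : ∃ j ∈ J, ¬ cs.length (cs.simple i * d) < cs.length (cs.simple i * d * cs.simple j) := by
    by_contra hcon
    push Not at hcon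
    have h6 : RMin cs J (cs.simple i * d) := hcon
    have h7 := h6.mul hy
    rw [mul_assoc, ← hxy, ← mul_assoc, h3] at h7
    rcases cs.length_simple_mul d i with h | h <;> omega
  obtain ⟨j, hj, h6⟩ := h5
  refine ⟨j, hj, exchange_eq cs i j d h4 (hr j hj) ?_⟩
  have h7 : cs.length (cs.simple i * d * cs.simple j) + 1 = cs.length (cs.simple i * d) := by
    rcases cs.length_mul_simple (cs.simple i * d) j with h | h <;> omega
  rcases cs.length_simple_mul d i with h | h <;> omega

/-- If `W_I ∩ d W_J d⁻¹` contains two different elements `≠ 1`, then two different elements of `I`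
are good. -/
lemma two_good {I J : Set B} {d : W} (hl : LMin cs I d) (hr : RMin cs J d) {x x' : W}
    (hx : x ∈ Par cs I) {y : W} (hy : y ∈ Par cs J) (hxy : x * d = d * y)
    (hx' : x' ∈ Par cs I) {y' : W} (hy' : y' ∈ Par cs J) (hxy' : x' * d = d * y')
    (h1 : x ≠ 1) (h1' : x' ≠ 1) (hne : x ≠ x') :
    ∃ i ∈ I, ∃ i' ∈ I, i ≠ i' ∧ Good cs J d i ∧ Good cs J d i' := by
  by_contra hcon
  push Not at hcon
  -- all good elements of `I` are equal
  have huniq : ∀ i ∈ I, ∀ i' ∈ I, Good cs J d i → Good cs J d i' → i = i' := by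
    intro i hi i' hi' hg hg'
    by_contra hne
    exact hcon i hi i' hi' hne hg hg'
  have key : ∀ z ∈ Par cs I, z ≠ 1 → (∃ y ∈ Par cs J, z * d = d * y) →
      ∃ i ∈ I, Good cs J d i ∧ z = cs.simple i := by
    rintro z hz hz1 ⟨y, hy, hzy⟩
    obtain ⟨i, hi, hlt⟩ := par_ldescent hz hz1
    obtain ⟨-, hg⟩ := good_of_descent hl hr hz hy hzy hlt
    refine ⟨i, hi, hg, ?_⟩
    by_contra hne
    have hz2 : cs.simple i * z ≠ 1 := by
      intro h
      apply hne
      have : cs.simple i * (cs.simple i * z) = cs.simple i * 1 := by rw [h]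
      simpa using this
    obtain ⟨j, hj, hij⟩ := hg
    have hz3 : cs.simple i * z ∈ Par cs I := mul_mem (simple_mem_par hi) hz
    obtain ⟨i2, hi2, hlt2⟩ := par_ldescent hz3 hz2
    have e : cs.simple i * z * d = d * (cs.simple j * y) := by
      rw [mul_assoc, hzy, ← mul_assoc, hij, mul_assoc]
    obtain ⟨-, hg2⟩ := good_of_descent hl hr hz3 (mul_mem (simple_mem_par hj) hy) e hlt2
    have : i2 = i := huniq i2 hi2 i hi hg2 ⟨j, hj, hij⟩
    subst this
    rw [cs.simple_mul_simple_cancel_left] at hlt2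
    omega
  obtain ⟨i, hi, hg, e⟩ := key x hx h1 ⟨y, hy, hxy⟩
  obtain ⟨i', hi', hg', e'⟩ := key x' hx' h1' ⟨y', hy', hxy'⟩
  exact hne (by rw [e, e', huniq i hi i' hi' hg hg'])

/-- The order of `s_i s_j` is `m(i,j)`. -/
lemma pow_ne_one {i j : B} (h : i ≠ j) (h0 : M i j ≠ 0) {k : ℕ} (hk0 : 0 < k) (hk : k < M i j) :
    (cs.simple i * cs.simple j) ^ k ≠ 1 := by
  intro hcon
  have h1 := congrArg (fun w => geo cs w (ee i)) hcon
  simp only [map_pow, map_mul, geo_simple, map_one, Module.End.one_apply] at h1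
  rw [← prod_alt_eq_pow (sg M), prod_alt_ee] at h1
  rw [if_pos (even_two_mul k)] at h1
  have hj := congrFun h1 j
  have hi := congrFun h1 i
  simp only [ee, Pi.add_apply, Pi.smul_apply, Pi.single_eq_same, smul_eq_mul, mul_one,
    Pi.single_eq_of_ne h, Pi.single_eq_of_ne h.symm, mul_zero, add_zero, zero_add] at hi hj
  have hs := sin_pos_of_ne M h h0
  have q1 := qs_sin (Real.pi / (M i j : ℝ)) (2 * k)
  have q2 := qs_sin (Real.pi / (M i j : ℝ)) (2 * k + 1)
  have e : Real.cos (Real.pi / (M i j : ℝ)) = cc M i j := rfl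
  rw [e, hj, zero_mul] at q1
  rw [e, hi, one_mul] at q2
  -- `sin (2kθ) = 0` and `sin ((2k+1)θ) = sin θ`, so `cos (2kθ) = 1`
  have e2 : (((2 * k + 1 : ℕ) : ℝ)) * (Real.pi / (M i j : ℝ)) =
      ((2 * k : ℕ) : ℝ) * (Real.pi / (M i j : ℝ)) + Real.pi / (M i j : ℝ) := by
    push_cast; ring
  rw [e2, Real.sin_add, ← q1, zero_mul, zero_add] at q2
  have q3 : Real.cos (((2 * k : ℕ) : ℝ) * (Real.pi / (M i j : ℝ))) = 1 := by
    have : (Real.cos (((2 * k : ℕ) : ℝ) * (Real.pi / (M i j : ℝ))) - 1) *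
        Real.sin (Real.pi / (M i j : ℝ)) = 0 := by
      rw [sub_mul, one_mul, ← q2, sub_self]
    have := (mul_eq_zero.1 this).resolve_right hs.ne'
    linarith
  rw [Real.cos_eq_one_iff_of_lt_of_lt] at q3
  · have hpos : (0 : ℝ) < ((2 * k : ℕ) : ℝ) * (Real.pi / (M i j : ℝ)) := by
      have : (0 : ℝ) < M i j := by exact_mod_cast Nat.pos_of_ne_zero h0
      have hk' : (0 : ℝ) < ((2 * k : ℕ) : ℝ) := by exact_mod_cast (by omega : 0 < 2 * k)
      positivity
    rw [q3] at hpos
    exact lt_irrefl _ hpos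
  · have : (0 : ℝ) < M i j := by exact_mod_cast Nat.pos_of_ne_zero h0
    have h5 : (0 : ℝ) ≤ ((2 * k : ℕ) : ℝ) * (Real.pi / (M i j : ℝ)) := by positivity
    linarith [Real.pi_pos]
  · have hm : (0 : ℝ) < M i j := by exact_mod_cast Nat.pos_of_ne_zero h0
    have hk' : ((k : ℝ)) < (M i j : ℝ) := by exact_mod_cast hk
    push_cast
    rw [mul_div_assoc', div_lt_iff₀ hm]
    nlinarith [Real.pi_pos]

end

end Pool.Agent.X257.SE
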